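import Pool.Agent.R963.TS.Wend
import Pool.Agent.R963.TS.Stj
import Pool.Agent.R963.TS.CF
import Pool.Agent.R963.TS.Fin

/-!
# MP_f86038_pr: symmetric i.i.d. perturbations reproducing 1/2-Tsallis FTRL for two arms

The answer to Q1 is positive.  The characteristic function `g` of the law of `c(U)` satisfies
`g(t) = 4 ∫_0^∞ exp(-t cosh x) kap(sinh x) dx` for `t > 0`.  With `phi = sqrt g` the function
`-phi'(t)/t` is three times monotone on `(0,∞)`, so `phi(|t|)` is a mixture of the positive
definite functions `(1-|t|/r)_+^3 (1+3|t|/r)`.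
-/

set_option autoImplicit false

open MeasureTheory Filter Topology Set
open Pool.Agent.R963.TS

namespace Pool.Agent.Results.MP_f86038_pr.SymmetricIIDRealisation

lemma dbar_prob : IsProbabilityMeasure Dbar := by
  have h : IsProbabilityMeasure (volume.restrict (Ioo (0 : ℝ) 1)) := by
    refine ⟨?_⟩
    rw [Measure.restrict_apply_univ, Real.volume_Ioo]
    norm_num
  exact Measure.isProbabilityMeasure_map cc_meas.aemeasurable

noncomputable def gg (t : ℝ) : ℝ := (charFun Dbar t).re

lemma charFun_real (t : ℝ) : charFun Dbar t = (gg |t| : ℂ) := by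
  unfold gg
  rw [charFun_Dbar kap_stieltjes t, charFun_Dbar kap_stieltjes |t|, abs_abs, Complex.ofReal_re]

lemma gg_eq (t : ℝ) (ht : 0 < t) : gg t = gb t := by
  unfold gg
  rw [charFun_Dbar kap_stieltjes t, Complex.ofReal_re, abs_of_pos ht]
  have h1 : ∫ x : ℝ, Real.exp (-(t * Real.cosh x)) * kap (Real.sinh x) =
      2 * ∫ x in Ioi (0 : ℝ), Real.exp (-(t * Real.cosh x)) * kap (Real.sinh x) := by
    rw [← integral_comp_abs]
    refine integral_congr_ae (Eventually.of_forall fun x => ?_)
    simp only [Real.cosh_abs]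
    rcases abs_choice x with h | h
    · rw [h]
    · rw [h, Real.sinh_neg, kap_even]
  rw [h1]
  unfold gb LL ks
  rw [← integral_const_mul, ← integral_const_mul, ← integral_const_mul]
  refine integral_congr_ae (Eventually.of_forall fun x => ?_)
  simp only [pow_zero, mul_one]
  have h2 : Real.exp (-(t * Real.cosh x)) = Real.exp (-t) * Real.exp (-(t * uu x)) := by
    rw [← Real.exp_add]
    congr 1
    unfold uu
    ring
  rw [h2]
  ring

lemma gg_zero : gg 0 = 1 := by
  have := dbar_prob
  unfold gg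
  rw [charFun_zero]
  simp

lemma gg_cont : Continuous gg := by
  have := dbar_prob
  exact Complex.continuous_re.comp continuous_charFun

lemma gg_nonneg (t : ℝ) : 0 ≤ gg |t| := by
  rcases (abs_nonneg t).eq_or_lt with h | h
  · rw [← h, gg_zero]; exact zero_le_one
  · rw [gg_eq _ h]; exact (gb_pos h).le

/-- There is a symmetric probability measure `D` on `ℝ` such that for independent
`r₁, r₂ ∼ D` the difference `r₂ - r₁` has the law of `c(U)`, where
`c(x) = (1-x)^{-1/2} - x^{-1/2}` and `U` is uniform on `(0,1)`; equivalently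
`Pr[c(x) + r₁ ≥ r₂] = x` for every `x ∈ (0,1)`. -/
theorem result :
    ∃ D : Measure ℝ, IsProbabilityMeasure D ∧ D.map (fun x => -x) = D ∧
      (D.prod D).map (fun r : ℝ × ℝ => r.2 - r.1) =
        (volume.restrict (Ioo (0 : ℝ) 1)).map
          (fun x : ℝ => (1 - x) ^ (-(1 / 2) : ℝ) - x ^ (-(1 / 2) : ℝ)) ∧
      ∀ x ∈ Ioo (0 : ℝ) 1,
        (D.prod D) {r : ℝ × ℝ | r.2 ≤ ((1 - x) ^ (-(1 / 2) : ℝ) - x ^ (-(1 / 2) : ℝ)) + r.1} =
          ENNReal.ofReal x := by
  have hDb := dbar_prob
  obtain ⟨m, hm, hmc⟩ := wend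
  obtain ⟨D, hD, hDc⟩ := (cd_of gg gg_eq gg_zero gg_cont).main m hm (fun t => by
    rw [hmc t]; rfl)
  have hsub : Measurable (fun r : ℝ × ℝ => r.2 - r.1) := measurable_snd.sub measurable_fst
  have hlaw : (D.prod D).map (fun r : ℝ × ℝ => r.2 - r.1) = Dbar := by
    have hp : IsProbabilityMeasure ((D.prod D).map (fun r : ℝ × ℝ => r.2 - r.1)) :=
      Measure.isProbabilityMeasure_map hsub.aemeasurable
    refine Measure.ext_of_charFun (funext fun t => ?_)
    have h1 : charFun ((D.prod D).map (fun r : ℝ × ℝ => r.2 - r.1)) t =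
        charFun D (-t) * charFun D t := by
      rw [charFun_apply_real, integral_map hsub.aemeasurable (by fun_prop), charFun_apply_real,
        charFun_apply_real, ← integral_prod_mul]
      refine integral_congr_ae (Eventually.of_forall fun r => ?_)
      simp only
      rw [← Complex.exp_add]
      congr 1
      push_cast
      ring
    rw [h1, hDc, hDc, charFun_real, abs_neg, ← Complex.ofReal_mul,
      Real.mul_self_sqrt (gg_nonneg t)]
  refine ⟨D, hD, ?_, hlaw, ?_⟩
  · have hneg : Measurable (fun x : ℝ => -x) := measurable_neg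
    have hp : IsProbabilityMeasure (D.map (fun x : ℝ => -x)) :=
      Measure.isProbabilityMeasure_map hneg.aemeasurable
    refine Measure.ext_of_charFun (funext fun t => ?_)
    have h1 : charFun (D.map (fun x : ℝ => -x)) t = charFun D (-t) := by
      have h2 : (fun x : ℝ => -x) = (fun x : ℝ => (-1) * x) := by
        funext x; ring
      rw [h2, charFun_map_mul]
      congr 1
      ring
    rw [h1, hDc, hDc, abs_neg]
  · intro x hx
    have h1 : {r : ℝ × ℝ | r.2 ≤ ((1 - x) ^ (-(1 / 2) : ℝ) - x ^ (-(1 / 2) : ℝ)) + r.1} =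
        (fun r : ℝ × ℝ => r.2 - r.1) ⁻¹' Iic (cc x) := by
      ext r
      simp only [mem_setOf_eq, mem_preimage, mem_Iic]
      unfold cc
      constructor <;> intro h <;> linarith
    rw [h1, ← Measure.map_apply hsub measurableSet_Iic, hlaw, Dbar,
      Measure.map_apply cc_meas measurableSet_Iic,
      Measure.restrict_apply (cc_meas measurableSet_Iic)]
    have h2 : cc ⁻¹' Iic (cc x) ∩ Ioo (0 : ℝ) 1 = Ioc 0 x := by
      ext p
      simp only [mem_inter_iff, mem_preimage, mem_Iic, mem_Ioo, mem_Ioc]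
      constructor
      · rintro ⟨h, h0, h1⟩
        exact ⟨h0, (cc_strictMono.le_iff_le ⟨h0, h1⟩ hx).1 h⟩
      · rintro ⟨h0, h⟩
        have hp : p ∈ Ioo (0 : ℝ) 1 := ⟨h0, h.trans_lt hx.2⟩
        exact ⟨(cc_strictMono.le_iff_le hp hx).2 h, hp.1, hp.2⟩
    rw [h2, Real.volume_Ioc, sub_zero]

end Pool.Agent.Results.MP_f86038_pr.SymmetricIIDRealisation
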